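import Pool.Agent.Helper37_CAP.Stmts

/-!
# Module BOS: the Desarguesian affine plane of prime order is cyclic
-/

set_option autoImplicit false

namespace Pool.Agent.CAP.H10

section plane

variable (p : ℕ) [Fact p.Prime]

/-- the line through `a` with direction `b` -/
def ln (a b : GaloisField p 2) : Set (GaloisField p 2) :=
  Set.range (fun t : ZMod p => a + t • b)

/-- the set of all lines -/
def lns : Set (Set (GaloisField p 2)) := {S | ∃ a b : GaloisField p 2, b ≠ 0 ∧ S = ln p a b}

variable {p}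

lemma mem_ln {a b x : GaloisField p 2} : x ∈ ln p a b ↔ ∃ t : ZMod p, a + t • b = x := Iff.rfl

lemma ln_inj {a b : GaloisField p 2} (hb : b ≠ 0) :
    Function.Injective (fun t : ZMod p => a + t • b) := by
  intro s t h
  have h1 : s • b = t • b := add_left_cancel h
  have h2 : (s - t) • b = 0 := by rw [sub_smul, h1, sub_self]
  rcases smul_eq_zero.1 h2 with h3 | h3
  · exact sub_eq_zero.1 h3
  · exact absurd h3 hb

lemma ln_base {a b x : GaloisField p 2} (hx : x ∈ ln p a b) : ln p a b = ln p x b := by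
  obtain ⟨s, rfl⟩ := hx
  ext y
  constructor
  · rintro ⟨t, rfl⟩
    refine ⟨t - s, ?_⟩
    simp only [sub_smul]
    abel
  · rintro ⟨t, rfl⟩
    refine ⟨s + t, ?_⟩
    simp only [add_smul]
    abel

lemma ln_dir {a b : GaloisField p 2} {r : ZMod p} (hr : r ≠ 0) : ln p a (r • b) = ln p a b := by
  ext y
  constructor
  · rintro ⟨t, rfl⟩
    refine ⟨t * r, ?_⟩
    simp only [mul_smul]
  · rintro ⟨t, rfl⟩
    refine ⟨t * r⁻¹, ?_⟩
    simp only
    rw [smul_smul, mul_assoc, inv_mul_cancel₀ hr, mul_one]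

lemma self_mem {a b : GaloisField p 2} : a ∈ ln p a b := ⟨0, by simp⟩

lemma isPlane : AffinePlane p (GaloisField p 2) (lns p) where
  two_le := (Fact.out : p.Prime).two_le
  card := GaloisField.card p 2 two_ne_zero
  line := by
    rintro S ⟨a, b, hb, rfl⟩
    have h1 := Set.ncard_image_of_injective (Set.univ : Set (ZMod p)) (ln_inj (a := a) hb)
    rw [Set.image_univ, Set.ncard_univ, Nat.card_zmod] at h1
    exact h1
  join := by
    intro x y hxy
    have hyx : y - x ≠ 0 := sub_ne_zero.2 (Ne.symm hxy)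
    refine ⟨ln p x (y - x), ⟨⟨x, y - x, hyx, rfl⟩, self_mem, ⟨1, by simp⟩⟩, ?_⟩
    rintro S ⟨⟨a, b, hb, rfl⟩, hx, hy⟩
    rw [ln_base hx] at hy ⊢
    obtain ⟨r, hr⟩ := hy
    have h1 : y - x = r • b := by rw [← hr]; simp
    have h2 : r ≠ 0 := by
      rintro rfl
      rw [zero_smul] at h1
      exact hyx h1
    rw [h1, ln_dir h2]
  par := by
    rintro S ⟨a, b, hb, rfl⟩ x hx
    refine ⟨ln p x b, ⟨⟨x, b, hb, rfl⟩, self_mem, ?_⟩, ?_⟩
    · rw [Set.disjoint_left]
      intro y hy hy'
      apply hx
      rw [ln_base hy, ← ln_base hy']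
      exact self_mem
    · rintro T ⟨⟨c, d, hd, rfl⟩, hxT, hdis⟩
      rw [ln_base hxT] at hdis ⊢
      by_cases hpar : ∃ r : ZMod p, d = r • b
      · obtain ⟨r, rfl⟩ := hpar
        have h2 : r ≠ 0 := by
          rintro rfl
          rw [zero_smul] at hd
          exact hd rfl
        rw [ln_dir h2]
      · exfalso
        let f : ZMod p × ZMod p → GaloisField p 2 := fun q => q.1 • b + q.2 • d
        have hf : Function.Injective f := by
          rintro ⟨s, t⟩ ⟨s', t'⟩ h
          have h1 : s • b + t • d = s' • b + t' • d := h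
          have h3 : (t - t') • d = (s' - s) • b := by
            rw [sub_smul, sub_smul, sub_eq_sub_iff_add_eq_add, add_comm, h1]
          have h4 : t - t' = 0 := by
            by_contra h5
            apply hpar
            refine ⟨(t - t')⁻¹ * (s' - s), ?_⟩
            rw [mul_smul, ← h3, smul_smul, inv_mul_cancel₀ h5, one_smul]
          rw [h4, zero_smul] at h3
          have h6 : s' - s = 0 := by
            rcases smul_eq_zero.1 h3.symm with h7 | h7
            · exact h7
            · exact absurd h7 hb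
          have e1 : t = t' := sub_eq_zero.1 h4
          have e2 : s' = s := sub_eq_zero.1 h6
          rw [e1, e2]
        have hbij : Function.Bijective f := by
          apply hf.bijective_of_nat_card_le
          rw [GaloisField.card p 2 two_ne_zero, Nat.card_prod, Nat.card_zmod]
          exact le_of_eq (pow_two p)
        obtain ⟨⟨s, t⟩, hst⟩ := hbij.2 (x - a)
        have h1 : s • b + t • d = x - a := hst
        have h2 : a + s • b = x + (-t) • d := by
          rw [neg_smul]
          have h3 : s • b = x - a - t • d := by rw [← h1]; abel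
          rw [h3]
          abel
        exact Set.disjoint_left.1 hdis ⟨s, rfl⟩ ⟨-t, h2.symm⟩

lemma mulLeft_pow (g : (GaloisField p 2)ˣ) (i : ℕ) (x : GaloisField p 2) :
    ((Units.mulLeft g) ^ i) x = (g : GaloisField p 2) ^ i * x := by
  induction i with
  | zero => simp
  | succ i ih =>
    rw [pow_succ', Equiv.Perm.mul_apply, ih, Units.mulLeft_apply, pow_succ', mul_assoc]

lemma image_ln (g : (GaloisField p 2)ˣ) (a b : GaloisField p 2) :
    (Units.mulLeft g) '' (ln p a b) = ln p ((g : GaloisField p 2) * a) ((g : GaloisField p 2) * b) := by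
  ext y
  constructor
  · rintro ⟨x, ⟨t, rfl⟩, rfl⟩
    refine ⟨t, ?_⟩
    simp only [Units.mulLeft_apply]
    rw [mul_add, mul_smul_comm]
  · rintro ⟨t, rfl⟩
    refine ⟨a + t • b, ⟨t, rfl⟩, ?_⟩
    simp only [Units.mulLeft_apply]
    rw [mul_add, mul_smul_comm]

lemma isCyc : Cyclic (GaloisField p 2) (lns p) := by
  obtain ⟨g, hg⟩ := IsCyclic.exists_generator (α := (GaloisField p 2)ˣ)
  refine ⟨Units.mulLeft g, 0, ?_, ?_, ?_⟩
  · intro S
    constructor
    · rintro ⟨a, b, hb, rfl⟩
      exact ⟨_, _, mul_ne_zero g.ne_zero hb, image_ln g a b⟩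
    · rintro ⟨a, b, hb, h⟩
      refine ⟨(g⁻¹ : (GaloisField p 2)ˣ) * a, (g⁻¹ : (GaloisField p 2)ˣ) * b,
        mul_ne_zero (g⁻¹).ne_zero hb, ?_⟩
      have h1 : (Units.mulLeft g) '' S =
          (Units.mulLeft g) '' (ln p ((g⁻¹ : (GaloisField p 2)ˣ) * a) ((g⁻¹ : (GaloisField p 2)ˣ) * b)) := by
        rw [image_ln, h, Units.mul_inv_cancel_left, Units.mul_inv_cancel_left]
      exact (Units.mulLeft g).injective.image_injective h1
  · simp only [Units.mulLeft_apply, mul_zero]
  · intro x y hx hy
    have h1 : Units.mk0 y hy * (Units.mk0 x hx)⁻¹ ∈ Submonoid.powers g := by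
      rw [mem_powers_iff_mem_zpowers]
      exact hg _
    obtain ⟨i, hi⟩ := h1
    refine ⟨i, ?_⟩
    rw [mulLeft_pow]
    have h2 : (g : GaloisField p 2) ^ i = y * x⁻¹ := by
      have h3 := congrArg (fun u : (GaloisField p 2)ˣ => (u : GaloisField p 2)) hi
      simpa using h3
    rw [h2, mul_assoc, inv_mul_cancel₀ hx, mul_one]

end plane

theorem bos : BOS := by
  intro p hp
  have : Fact p.Prime := ⟨hp⟩
  exact ⟨GaloisField p 2, lns p, isPlane, isCyc⟩

end Pool.Agent.CAP.H10
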