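import Pool.Agent.Helper37_CAP.Stmts

/-!
# Module SMO: smooth numbers (Rankin)
-/

set_option autoImplicit false

open Finset

namespace Pool.Agent.CAP.H10

/-- `n ^ (-s)` as a monoid homomorphism -/
noncomputable def fr (s : ℝ) : ℕ →* ℝ where
  toFun n := (n : ℝ) ^ (-s)
  map_one' := by simp
  map_mul' a b := by push_cast; exact Real.mul_rpow (by positivity) (by positivity)

lemma fr_apply (s : ℝ) (n : ℕ) : fr s n = (n : ℝ) ^ (-s) := rfl

lemma fr_nonneg (s : ℝ) (n : ℕ) : 0 ≤ fr s n := Real.rpow_nonneg (by positivity) _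

lemma log_ge_two {Y : ℕ} (hY : 8 ≤ Y) : 2 ≤ Real.log Y := by
  have h1 : Real.log 8 ≤ Real.log Y := Real.log_le_log (by norm_num) (by exact_mod_cast hY)
  have h2 : Real.log 8 = 3 * Real.log 2 := by
    rw [show (8 : ℝ) = 2 ^ 3 by norm_num, Real.log_pow]
    norm_num
  have h3 := Real.log_two_gt_d9
  linarith

lemma fr_prime_le {Y : ℕ} (hY : 8 ≤ Y) {p : ℕ} (hp : p.Prime) :
    fr (1 - 1 / Real.log Y) p ≤ 3 / 4 := by
  have hl := log_ge_two hY
  have hs : 1 / 2 ≤ 1 - 1 / Real.log Y := by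
    have : 1 / Real.log Y ≤ 1 / 2 := one_div_le_one_div_of_le (by norm_num) hl
    linarith
  have hp2 : (2 : ℝ) ≤ p := by exact_mod_cast hp.two_le
  have h1 : fr (1 - 1 / Real.log Y) p ≤ (2 : ℝ) ^ (-(1 / 2) : ℝ) := by
    rw [fr_apply]
    calc (p : ℝ) ^ (-(1 - 1 / Real.log Y)) ≤ (p : ℝ) ^ (-(1 / 2) : ℝ) :=
          Real.rpow_le_rpow_of_exponent_le (by linarith) (by linarith)
      _ ≤ (2 : ℝ) ^ (-(1 / 2) : ℝ) :=
          Real.rpow_le_rpow_of_nonpos (by norm_num) hp2 (by norm_num)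
  refine h1.trans ?_
  have h2 : (2 : ℝ) ^ (-(1 / 2) : ℝ) = (Real.sqrt 2)⁻¹ := by
    rw [Real.rpow_neg (by norm_num), Real.sqrt_eq_rpow]
  rw [h2]
  have h3 : (4 / 3 : ℝ) ≤ Real.sqrt 2 := by
    apply Real.le_sqrt_of_sq_le
    norm_num
  calc (Real.sqrt 2)⁻¹ ≤ (4 / 3 : ℝ)⁻¹ := inv_anti₀ (by norm_num) h3
    _ = 3 / 4 := by norm_num

lemma fr_prime_le' {Y : ℕ} (hY : 8 ≤ Y) {p : ℕ} (hp : p.Prime) (hpY : p ≤ Y) :
    fr (1 - 1 / Real.log Y) p ≤ 3 * (1 / p) := by
  have hl := log_ge_two hY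
  have hp0 : (0 : ℝ) < p := by exact_mod_cast hp.pos
  have hp1 : (1 : ℝ) ≤ p := by exact_mod_cast hp.one_lt.le
  have h1 : fr (1 - 1 / Real.log Y) p = (p : ℝ) ^ (1 / Real.log Y) * (1 / p) := by
    rw [fr_apply, show -(1 - 1 / Real.log Y) = 1 / Real.log Y - 1 by ring, Real.rpow_sub hp0,
      Real.rpow_one]
    ring
  rw [h1]
  apply mul_le_mul_of_nonneg_right _ (by positivity)
  rw [Real.rpow_def_of_pos hp0]
  have h2 : Real.log p ≤ Real.log Y := Real.log_le_log hp0 (by exact_mod_cast hpY)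
  have h3 : Real.log p * (1 / Real.log Y) ≤ 1 := by
    rw [mul_one_div, div_le_one (by linarith)]
    exact h2
  calc Real.exp (Real.log p * (1 / Real.log Y)) ≤ Real.exp 1 := Real.exp_le_exp.2 h3
    _ ≤ 3 := by have := Real.exp_one_lt_d9; linarith

lemma inv_le_exp {x : ℝ} (h0 : 0 ≤ x) (h1 : x ≤ 3 / 4) : (1 - x)⁻¹ ≤ Real.exp (4 * x) := by
  have h2 : 0 < 1 - x := by linarith
  have h3 : 4 * x + 1 ≤ Real.exp (4 * x) := Real.add_one_le_exp _
  refine le_trans ?_ h3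
  rw [inv_le_iff_one_le_mul₀ h2]
  nlinarith

lemma prod_le {Y : ℕ} (hY : 8 ≤ Y) :
    ∏ p ∈ (Y + 1).primesBelow, (1 - fr (1 - 1 / Real.log Y) p)⁻¹ ≤
      Real.exp (18 * Real.log Y) := by
  have hl := log_ge_two hY
  have h1 : ∏ p ∈ (Y + 1).primesBelow, (1 - fr (1 - 1 / Real.log Y) p)⁻¹ ≤
      ∏ p ∈ (Y + 1).primesBelow, Real.exp (12 * (1 / (p : ℝ))) := by
    apply Finset.prod_le_prod
    · intro p hp
      have hp' := Nat.prime_of_mem_primesBelow hp
      have := fr_prime_le hY hp'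
      apply inv_nonneg.2
      linarith
    · intro p hp
      have hp' := Nat.prime_of_mem_primesBelow hp
      have hpY : p ≤ Y := Nat.lt_succ_iff.1 (Nat.lt_of_mem_primesBelow hp)
      refine (inv_le_exp (fr_nonneg _ _) (fr_prime_le hY hp')).trans ?_
      apply Real.exp_le_exp.2
      have := fr_prime_le' hY hp' hpY
      linarith
  refine h1.trans ?_
  rw [← Real.exp_sum]
  apply Real.exp_le_exp.2
  rw [← Finset.mul_sum]
  have h2 : ∑ p ∈ (Y + 1).primesBelow, (1 / (p : ℝ)) ≤ 1 + Real.log Y := by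
    have h3 : ∑ p ∈ (Y + 1).primesBelow, (1 / (p : ℝ)) ≤ ∑ n ∈ Finset.Icc 1 Y, (1 / (n : ℝ)) := by
      apply Finset.sum_le_sum_of_subset_of_nonneg
      · intro p hp
        have hp' := Nat.prime_of_mem_primesBelow hp
        have hpY : p ≤ Y := Nat.lt_succ_iff.1 (Nat.lt_of_mem_primesBelow hp)
        exact Finset.mem_Icc.2 ⟨hp'.pos, hpY⟩
      · intro n _ _
        positivity
    refine h3.trans ?_
    have h4 := harmonic_le_one_add_log Y
    have h5 : (harmonic Y : ℝ) = ∑ n ∈ Finset.Icc 1 Y, (1:ℝ) / n := by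
      rw [harmonic_eq_sum_Icc]
      push_cast
      simp
    rw [← h5]
    exact h4
  linarith

theorem smo : SMO := by
  refine ⟨18, by norm_num, ?_⟩
  intro X Y hX hY
  classical
  have hl := log_ge_two hY
  set s : ℝ := 1 - 1 / Real.log Y with hs
  have hX0 : (0 : ℝ) < X := by exact_mod_cast hX
  have hspos : 0 ≤ s := by
    have : 1 / Real.log Y ≤ 1 / 2 := one_div_le_one_div_of_le (by norm_num) hl
    rw [hs]
    linarith
  have h1 := EulerProduct.summable_and_hasSum_smoothNumbers_prod_primesBelow_geometric (f := fr s)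
    (by
      intro p hp
      rw [Real.norm_eq_abs, abs_of_nonneg (fr_nonneg _ _)]
      have := fr_prime_le hY hp
      rw [hs]
      linarith) (Y + 1)
  set A : Finset ℕ := (Finset.Icc 1 X).filter (Smooth Y) with hA
  have hmem : ∀ n ∈ A, n ∈ (Y + 1).smoothNumbers := by
    intro n hn
    have hn' := Finset.mem_filter.1 hn
    have h2 := Finset.mem_Icc.1 hn'.1
    refine ⟨by omega, ?_⟩
    intro p hp
    have h3 := hn'.2 p (Nat.prime_of_mem_primeFactorsList hp) (Nat.dvd_of_mem_primeFactorsList hp)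
    omega
  have hsum : ∑ n ∈ A, fr s n ≤ ∏ p ∈ (Y + 1).primesBelow, (1 - fr s p)⁻¹ := by
    let emb : {x // x ∈ A} → (Y + 1).smoothNumbers := fun n => ⟨n.1, hmem n.1 n.2⟩
    have hemb : Function.Injective emb := by
      intro a b hab
      have := congrArg Subtype.val hab
      exact Subtype.ext this
    have h7 := sum_le_hasSum (A.attach.map ⟨emb, hemb⟩) (fun m _ => fr_nonneg _ _) h1.2
    refine le_trans (le_of_eq ?_) h7
    rw [Finset.sum_map, ← Finset.sum_attach]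
    rfl
  have hone : ∀ n ∈ A, (1 : ℝ) ≤ (X : ℝ) ^ s * fr s n := by
    intro n hn
    have hn' := Finset.mem_filter.1 hn
    have h2 := Finset.mem_Icc.1 hn'.1
    have hn0 : (0 : ℝ) < n := by exact_mod_cast h2.1
    rw [fr_apply, Real.rpow_neg hn0.le, ← div_eq_mul_inv, one_le_div (Real.rpow_pos_of_pos hn0 _)]
    exact Real.rpow_le_rpow hn0.le (by exact_mod_cast h2.2) hspos
  have hcard : (cnt (Smooth Y) X : ℝ) = ∑ n ∈ A, (1 : ℝ) := by
    rw [Finset.sum_const, nsmul_eq_mul, mul_one]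
    unfold cnt
    rw [hA]
  rw [hcard]
  calc ∑ n ∈ A, (1 : ℝ) ≤ ∑ n ∈ A, (X : ℝ) ^ s * fr s n := Finset.sum_le_sum hone
    _ = (X : ℝ) ^ s * ∑ n ∈ A, fr s n := by rw [Finset.mul_sum]
    _ ≤ (X : ℝ) ^ s * ∏ p ∈ (Y + 1).primesBelow, (1 - fr s p)⁻¹ :=
        mul_le_mul_of_nonneg_left hsum (Real.rpow_nonneg hX0.le _)
    _ ≤ (X : ℝ) ^ s * Real.exp (18 * Real.log Y) :=
        mul_le_mul_of_nonneg_left (prod_le hY) (Real.rpow_nonneg hX0.le _)
    _ = X * Real.exp (18 * Real.log Y - Real.log X / Real.log Y) := by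
        have e1 : (X : ℝ) ^ s = X * Real.exp (-(Real.log X / Real.log Y)) := by
          rw [hs, Real.rpow_sub hX0, Real.rpow_one, Real.rpow_def_of_pos hX0, Real.exp_neg,
            mul_one_div]
          rfl
        rw [e1, mul_assoc, ← Real.exp_add]
        ring_nf

end Pool.Agent.CAP.H10
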